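import Mathlib

set_option autoImplicit false

namespace Pool.Agent.Results.MP_4b6139_gt.Counter

open Set Topology Filter OnePoint

universe v

/-- `A` is P-embedded in `X`: every continuous map from `A` into a real Banach space (in the
universe `v`) extends continuously to `X`. -/
def PEmbedded {X : Type} [TopologicalSpace X] (A : Set X) : Prop :=
  ∀ (B : Type v) [NormedAddCommGroup B] [NormedSpace ℝ B] [CompleteSpace B] (f : A → B),
    Continuous f → ∃ F : X → B, Continuous F ∧ ∀ a : A, F a = f a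

/-- `A` is C-embedded in `X`: every continuous real function on `A` extends continuously. -/
def CEmbedded {X : Type} [TopologicalSpace X] (A : Set X) : Prop :=
  ∀ f : A → ℝ, Continuous f → ∃ F : X → ℝ, Continuous F ∧ ∀ a : A, F a = f a

/-- Čech-complete: Tychonoff and a `G_δ` in its Stone-Čech compactification. -/
def CechComplete (Z : Type) [TopologicalSpace Z] : Prop :=
  T35Space Z ∧ IsGδ (Set.range (stoneCechUnit : Z → StoneCech Z))

/-- The irrationals. -/
abbrev P : Type := {x : ℝ // Irrational x}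

/-- A discrete copy of the irrationals. -/
def D : Type := P

instance : TopologicalSpace D := ⊥
instance : DiscreteTopology D := ⟨rfl⟩

def toD (x : P) : D := x
def ofD (d : D) : P := d

/-- The ambient space. -/
abbrev X : Type := P × OnePoint D

/-- The Alexandroff duplicate of the irrationals. -/
def A : Set X := {p | p.2 = ∞ ∨ p.2 = ((toD p.1 : D) : OnePoint D)}

/-- The Michael line. -/
def M : Type := ℝ

def toM (x : ℝ) : M := x
def ofM (x : M) : ℝ := x

instance : TopologicalSpace M where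
  IsOpen U := ∀ q ∈ U, ¬ Irrational (ofM q) → (toM ⁻¹' U) ∈ 𝓝 (ofM q)
  isOpen_univ := fun _ _ _ => by simp
  isOpen_inter := fun s t hs ht q hq h => by
    rw [preimage_inter]
    exact inter_mem (hs q hq.1 h) (ht q hq.2 h)
  isOpen_sUnion := fun S hS q hq h => by
    obtain ⟨U, hU, hqU⟩ := hq
    exact mem_of_superset (hS U hU q hqU h) (fun x hx => ⟨U, hU, hx⟩)

lemma M_isOpen_iff (U : Set M) :
    IsOpen U ↔ ∀ q ∈ U, ¬ Irrational (ofM q) → (toM ⁻¹' U) ∈ 𝓝 (ofM q) := Iff.rfl

lemma continuous_ofM : Continuous ofM := by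
  rw [continuous_def]
  intro U hU
  rw [M_isOpen_iff]
  intro q hq _
  exact hU.mem_nhds hq

lemma isOpen_single (y : P) : IsOpen ({toM y.1} : Set M) := by
  rw [M_isOpen_iff]
  intro q hq h
  rw [mem_singleton_iff] at hq
  subst hq
  exact absurd y.2 h

lemma mem_nhds_infty (S : Set (OnePoint D)) :
    S ∈ 𝓝 (∞ : OnePoint D) ↔ ∞ ∈ S ∧ {d : D | (d : OnePoint D) ∉ S}.Finite := by
  rw [nhds_infty_eq, mem_sup, mem_map, coclosedCompact_eq_cocompact, cocompact_eq_cofinite,
    mem_cofinite, mem_pure, and_comm]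
  rfl

lemma isOpen_coe_single (d : D) : IsOpen ({(d : OnePoint D)} : Set (OnePoint D)) := by
  have := isOpenEmbedding_coe.isOpenMap ({d} : Set D) (isOpen_discrete _)
  simpa using this

lemma isClosed_A : IsClosed A := by
  rw [← isOpen_compl_iff, isOpen_iff_mem_nhds]
  rintro ⟨m, z⟩ hp
  induction z using OnePoint.rec with
  | infty => exact absurd (Or.inl rfl) hp
  | coe d =>
    have hne : m ≠ ofD d := by
      intro h
      apply hp
      right
      show (d : OnePoint D) = ((toD m : D) : OnePoint D)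
      rw [h]; rfl
    have h1 : ({ofD d}ᶜ : Set P) ∈ 𝓝 m := isOpen_compl_singleton.mem_nhds hne
    have h2 : ({(d : OnePoint D)} : Set (OnePoint D)) ∈ 𝓝 (d : OnePoint D) :=
      (isOpen_coe_single d).mem_nhds rfl
    refine mem_of_superset (prod_mem_nhds h1 h2) ?_
    rintro ⟨m', z'⟩ ⟨hm', hz'⟩ hA
    simp only [mem_singleton_iff] at hz'
    subst hz'
    rcases hA with h | h
    · exact OnePoint.coe_ne_infty d h
    · apply hm'
      have := OnePoint.coe_injective h
      show m' = ofD d
      rw [this]; rfl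

lemma paracompact_A : ParacompactSpace A :=
  isClosed_A.isClosedEmbedding_subtypeVal.paracompactSpace

lemma t35_X : T35Space X := inferInstance

lemma cech_A : CechComplete A := by
  have := t35_X
  refine ⟨inferInstance, ?_⟩
  let i : X → OnePoint ℝ × OnePoint D := fun p => (((p.1 : ℝ) : OnePoint ℝ), p.2)
  have hi : IsInducing i :=
    ((isOpenEmbedding_coe.isInducing.comp IsInducing.subtypeVal).prodMap IsInducing.id)
  let e : A → OnePoint ℝ × OnePoint D := fun a => i a
  have he : IsInducing e := hi.comp IsInducing.subtypeVal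
  let φ := stoneCechExtend he.continuous
  have hφ : Continuous φ := continuous_stoneCechExtend _
  have hφe : ∀ a : A, φ (stoneCechUnit a) = e a := fun a =>
    congrFun (stoneCechExtend_extends he.continuous) a
  let G : Set (OnePoint ℝ) := {∞}ᶜ ∩ ⋂ q : ℚ, {((q : ℝ) : OnePoint ℝ)}ᶜ
  have hG : IsGδ G :=
    isOpen_compl_singleton.isGδ.inter (IsGδ.iInter fun q => isOpen_compl_singleton.isGδ)
  have key : Set.range (stoneCechUnit : A → StoneCech A) = (fun p => (φ p).1) ⁻¹' G := by
    apply Subset.antisymm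
    · rintro _ ⟨a, rfl⟩
      simp only [mem_preimage, hφe, G, e, i, mem_inter_iff, mem_compl_iff, mem_singleton_iff,
        mem_iInter]
      refine ⟨OnePoint.coe_ne_infty _, fun q h => ?_⟩
      exact a.1.1.2 ⟨q, (OnePoint.coe_injective h).symm⟩
    · intro p hp
      have hcl : φ p ∈ closure (range e) := by
        have h1 : p ∈ closure (range (stoneCechUnit : A → StoneCech A)) :=
          denseRange_stoneCechUnit p
        have h2 := image_closure_subset_closure_image hφ ⟨p, h1, rfl⟩
        refine closure_mono ?_ h2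
        rintro _ ⟨_, ⟨a, rfl⟩, rfl⟩
        exact ⟨a, (hφe a).symm⟩
      obtain ⟨x, hx⟩ : ∃ x : X, i x = φ p := by
        obtain ⟨h1, h2⟩ := hp
        obtain ⟨r, hr⟩ := OnePoint.ne_infty_iff_exists.1 h1
        have hirr : Irrational r := by
          rintro ⟨q, hq⟩
          have := mem_iInter.1 h2 q
          apply this
          rw [mem_singleton_iff, ← hr, hq]
        exact ⟨(⟨r, hirr⟩, (φ p).2), Prod.ext hr rfl⟩
      have hxA : x ∈ A := by
        rw [← isClosed_A.closure_eq, hi.closure_eq_preimage_closure_image, mem_preimage, hx]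
        refine closure_mono ?_ hcl
        rintro _ ⟨a, rfl⟩
        exact ⟨a, a.2, rfl⟩
      let a : A := ⟨x, hxA⟩
      have hpa : φ p = e a := hx.symm
      refine ⟨a, ?_⟩
      have hne : (comap (stoneCechUnit : A → StoneCech A) (𝓝 p)).NeBot := by
        rw [comap_neBot_iff]
        intro t ht
        obtain ⟨y, hy, ⟨b, rfl⟩⟩ := (mem_closure_iff_nhds.1 (denseRange_stoneCechUnit p)) t ht
        exact ⟨b, hy⟩
      have h1 : Tendsto e (comap (stoneCechUnit : A → StoneCech A) (𝓝 p)) (𝓝 (e a)) := by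
        have : Tendsto (fun b : A => φ (stoneCechUnit b))
            (comap (stoneCechUnit : A → StoneCech A) (𝓝 p)) (𝓝 (φ p)) :=
          (hφ.tendsto p).comp tendsto_comap
        rw [hpa] at this
        simpa only [hφe] using this
      have h2 : comap (stoneCechUnit : A → StoneCech A) (𝓝 p) ≤ 𝓝 a := by
        rw [he.nhds_eq_comap]
        exact tendsto_iff_comap.1 h1
      have h3 : Tendsto (stoneCechUnit : A → StoneCech A)
          (comap (stoneCechUnit : A → StoneCech A) (𝓝 p)) (𝓝 (stoneCechUnit a)) :=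
        (continuous_stoneCechUnit.tendsto a).mono_left h2
      exact tendsto_nhds_unique h3 tendsto_comap
  rw [key]
  exact hG.preimage (continuous_fst.comp hφ)

lemma pEmbedded_A : PEmbedded.{v} A := by
  classical
  intro B _ _ _ f hf
  let g : P → B := fun m => f ⟨(m, ∞), Or.inl rfl⟩
  have hg : Continuous g := hf.comp (by fun_prop)
  let h : D → B := fun d => f ⟨(ofD d, (d : OnePoint D)), Or.inr rfl⟩ - g (ofD d)
  have hK : ∀ (m₀ : P) (ε : ℝ), 0 < ε → ∃ δ > 0, ∃ E : Set D, E.Finite ∧
      ∀ d : D, d ∉ E → dist (ofD d) m₀ < δ → ‖h d‖ < ε := by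
    intro m₀ ε hε
    have h1 : ∀ᶠ a : A in 𝓝 (⟨(m₀, ∞), Or.inl rfl⟩ : A), dist (f a) (g m₀) < ε / 2 :=
      Metric.tendsto_nhds.1 (hf.tendsto _) _ (half_pos hε)
    rw [nhds_subtype, eventually_comap, nhds_prod_eq, eventually_prod_iff] at h1
    obtain ⟨pa, hpa, pb, hpb, hab⟩ := h1
    have h2 : ∀ᶠ m in 𝓝 m₀, dist (g m) (g m₀) < ε / 2 :=
      Metric.tendsto_nhds.1 (hg.tendsto _) _ (half_pos hε)
    obtain ⟨δ, hδ, hb⟩ := Metric.eventually_nhds_iff.1 (hpa.and h2)
    refine ⟨δ, hδ, _, ((mem_nhds_infty _).1 hpb).2, fun d hd hdist => ?_⟩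
    have hd' : pb (d : OnePoint D) := by simpa using hd
    have h3 := hab (hb hdist).1 hd' ⟨(ofD d, (d : OnePoint D)), Or.inr rfl⟩ rfl
    have h4 := (hb hdist).2
    rw [dist_eq_norm] at h3 h4
    calc ‖h d‖ = ‖(f ⟨(ofD d, (d : OnePoint D)), Or.inr rfl⟩ - g m₀) - (g (ofD d) - g m₀)‖ := by
          simp only [h]; congr 1; abel
      _ ≤ _ := norm_sub_le _ _
      _ < ε / 2 + ε / 2 := add_lt_add h3 h4
      _ = ε := add_halves ε
  have hS : {d : D | h d ≠ 0}.Countable := by
    have h1 : ∀ n : ℕ, {d : D | (1 : ℝ) / (n + 1) ≤ ‖h d‖}.Countable := by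
      intro n
      choose δ hδ E hE hEd using fun m₀ : P => hK m₀ (1 / (n + 1)) Nat.one_div_pos_of_nat
      obtain ⟨s, hs, hcov⟩ := TopologicalSpace.countable_cover_nhds
        (f := fun m₀ : P => Metric.ball m₀ (δ m₀)) (fun m₀ => Metric.ball_mem_nhds _ (hδ m₀))
      refine (hs.biUnion fun m₀ _ => (hE m₀).countable).mono ?_
      intro d hd
      have : ofD d ∈ ⋃ x ∈ s, Metric.ball x (δ x) := hcov ▸ mem_univ _
      obtain ⟨m₀, hm₀, hb⟩ := mem_iUnion₂.1 this
      refine mem_iUnion₂.2 ⟨m₀, hm₀, ?_⟩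
      by_contra hn
      exact absurd (hEd m₀ d hn hb) (not_lt.2 hd)
    refine (countable_iUnion h1).mono ?_
    intro d hd
    obtain ⟨n, hn⟩ := exists_nat_one_div_lt (norm_pos_iff.2 hd)
    exact mem_iUnion.2 ⟨n, hn.le⟩
  obtain ⟨j, hj⟩ := countable_iff_exists_injOn.1 hS
  let lam : D → P → ℝ := fun d m => max 0 (1 - ((j d : ℝ) + 1) * dist m (ofD d))
  have hlam : ∀ d, Continuous (lam d) := fun d => by
    simp only [lam]; fun_prop
  have hlam1 : ∀ d m, |lam d m| ≤ 1 := fun d m => by
    rw [abs_of_nonneg (le_max_left _ _)]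
    refine max_le zero_le_one ?_
    have : 0 ≤ ((j d : ℝ) + 1) * dist m (ofD d) := by positivity
    linarith
  let k : X → B := fun p => OnePoint.elim p.2 0 (fun d => lam d p.1 • h d)
  have hk : Continuous k := by
    rw [continuous_iff_continuousAt]
    rintro ⟨m₀, z⟩
    induction z using OnePoint.rec with
    | coe d =>
      have h2 : (univ ×ˢ {(d : OnePoint D)} : Set X) ∈ 𝓝 ((m₀, (d : OnePoint D)) : X) :=
        prod_mem_nhds univ_mem ((isOpen_coe_single d).mem_nhds rfl)
      have h3 : ContinuousAt (fun p : X => lam d p.1 • h d) (m₀, (d : OnePoint D)) :=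
        (((hlam d).comp continuous_fst).smul continuous_const).continuousAt
      refine h3.congr ?_
      filter_upwards [h2] with p hp
      have : p.2 = (d : OnePoint D) := hp.2
      simp only [k, this]
      rfl
    | infty =>
      rw [ContinuousAt, Metric.tendsto_nhds]
      intro ε hε
      obtain ⟨δ, hδ, E, hE, hEd⟩ := hK m₀ ε hε
      obtain ⟨N, hN⟩ := exists_nat_one_div_lt (half_pos hδ)
      have hfin : ({d : D | h d ≠ 0} ∩ j ⁻¹' (Iic N)).Finite :=
        Finite.of_finite_image ((finite_Iic N).subset (by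
          rintro _ ⟨d, hd, rfl⟩; exact hd.2)) (hj.mono inter_subset_left)
      let W : Set (OnePoint D) := {z | ∀ d : D, z = (d : OnePoint D) →
        d ∉ E ∪ ({d : D | h d ≠ 0} ∩ j ⁻¹' (Iic N))}
      have hW : W ∈ 𝓝 (∞ : OnePoint D) := by
        rw [mem_nhds_infty]
        refine ⟨fun d hd => absurd hd.symm (OnePoint.coe_ne_infty d), ?_⟩
        refine (hE.union hfin).subset ?_
        intro d hd
        by_contra hn
        apply hd
        intro d' hd'
        rw [← OnePoint.coe_injective hd']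
        exact hn
      filter_upwards [prod_mem_nhds (Metric.ball_mem_nhds m₀ (half_pos hδ)) hW]
      rintro ⟨m, z⟩ ⟨hm, hz⟩
      have hk0 : k (m₀, ∞) = 0 := rfl
      rw [hk0, dist_zero_right]
      induction z using OnePoint.rec with
      | infty =>
        have : k (m, ∞) = 0 := rfl
        rw [this, norm_zero]; exact hε
      | coe d =>
        have hkd : k (m, (d : OnePoint D)) = lam d m • h d := rfl
        rw [hkd]
        have hd := hz d rfl
        by_cases h0 : h d = 0
        · rw [h0, smul_zero, norm_zero]; exact hε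
        have hdE : d ∉ E := fun h => hd (Or.inl h)
        have hjd : N < j d := by
          by_contra hn
          exact hd (Or.inr ⟨h0, not_lt.1 hn⟩)
        by_cases hdist : dist (ofD d) m₀ < δ
        · rw [norm_smul, Real.norm_eq_abs]
          calc |lam d m| * ‖h d‖ ≤ 1 * ‖h d‖ := by gcongr; exact hlam1 d m
            _ < ε := by rw [one_mul]; exact hEd d hdE hdist
        · have hm' : dist m m₀ < δ / 2 := hm
          have h5 : δ / 2 < dist m (ofD d) := by
            have := dist_triangle (ofD d) m m₀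
            rw [dist_comm (ofD d) m] at this
            push Not at hdist
            linarith
          have h6 : (1 : ℝ) ≤ ((j d : ℝ) + 1) * dist m (ofD d) := by
            have h7 : (1 : ℝ) < (δ / 2) * ((N : ℝ) + 1) := by
              rwa [div_lt_iff₀ (by positivity)] at hN
            have h8 : (N : ℝ) + 1 ≤ (j d : ℝ) + 1 := by
              have : (N : ℝ) ≤ j d := by exact_mod_cast hjd.le
              linarith
            have h9 : (δ / 2) * ((N : ℝ) + 1) ≤ dist m (ofD d) * ((j d : ℝ) + 1) := by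
              gcongr
            linarith
          have : lam d m = 0 := max_eq_left (by linarith)
          rw [this, zero_smul, norm_zero]; exact hε
  refine ⟨fun p => g p.1 + k p, (hg.comp continuous_fst).add hk, ?_⟩
  rintro ⟨⟨m, z⟩, hz⟩
  rcases hz with hz | hz
  · simp only at hz
    subst hz
    have : k (m, ∞) = 0 := rfl
    simp only [this, add_zero, g]
  · simp only at hz
    subst hz
    have hkd : k (m, ((toD m : D) : OnePoint D)) = lam (toD m) m • h (toD m) := rfl
    have h1 : lam (toD m) m = 1 := by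
      have : ofD (toD m) = m := rfl
      simp [lam, this]
    simp only [hkd, h1, one_smul, h]
    have : ofD (toD m) = m := rfl
    simp only [this]
    abel

lemma not_cEmbedded : ¬ CEmbedded (A ×ˢ (univ : Set M)) := by
  classical
  intro hC
  let Z : Set (X × M) := {p | ∃ d : D, p.1.2 = (d : OnePoint D) ∧ p.2 = toM (ofD d).1}
  have hZo : IsOpen Z := by
    rw [isOpen_iff_mem_nhds]
    rintro ⟨x, y⟩ ⟨d, hd1, hd2⟩
    have h1 : ((univ ×ˢ {(d : OnePoint D)} : Set X)) ∈ 𝓝 x :=
      (isOpen_univ.prod (isOpen_coe_single d)).mem_nhds ⟨trivial, hd1⟩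
    have h2 : ({toM (ofD d).1} : Set M) ∈ 𝓝 y := (isOpen_single _).mem_nhds hd2
    refine mem_of_superset (prod_mem_nhds h1 h2) ?_
    rintro ⟨x', y'⟩ ⟨hx', hy'⟩
    exact ⟨d, hx'.2, hy'⟩
  let O : Set (X × M) := {p | (p.1.1 : ℝ) ≠ ofM p.2} ∪
    ⋃ d : D, (univ ×ˢ {(d : OnePoint D)}ᶜ : Set X) ×ˢ ({toM (ofD d).1} : Set M)
  have hO : IsOpen O := by
    refine IsOpen.union ?_ (isOpen_iUnion fun d =>
      (isOpen_univ.prod isOpen_compl_singleton).prod (isOpen_single _))
    exact isOpen_ne_fun (by fun_prop) (continuous_ofM.comp continuous_snd)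
  let Z' : Set (A ×ˢ (univ : Set M) : Set (X × M)) := Subtype.val ⁻¹' Z
  have hZ' : IsClopen Z' := by
    refine ⟨?_, hZo.preimage continuous_subtype_val⟩
    rw [← isOpen_compl_iff]
    have : Z'ᶜ = Subtype.val ⁻¹' O := by
      ext ⟨⟨⟨m, z⟩, y⟩, hA, -⟩
      simp only [Z', Z, O, mem_compl_iff, mem_preimage, mem_setOf_eq, mem_union, mem_iUnion,
        mem_prod, mem_univ, true_and, mem_singleton_iff]
      constructor
      · intro hn
        by_cases hy : (m : ℝ) = ofM y
        · right
          refine ⟨toD m, fun hz => hn ⟨toD m, hz, ?_⟩, ?_⟩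
          · exact hy.symm
          · exact hy.symm
        · exact Or.inl hy
      · rintro (hne | ⟨d, hd1, hd2⟩) ⟨d', hd1', hd2'⟩
        · apply hne
          rcases hA with hA | hA
          · exact absurd (hd1'.symm.trans hA) (OnePoint.coe_ne_infty _)
          · have := OnePoint.coe_injective (hd1'.symm.trans hA)
            rw [hd2', this]; rfl
        · apply hd1
          have : (ofD d).1 = (ofD d').1 := hd2.symm.trans hd2'
          have : d = d' := Subtype.ext this
          rw [this]; exact hd1'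
    rw [this]
    exact hO.preimage continuous_subtype_val
  obtain ⟨F, hF, hFf⟩ := hC (Z'.indicator fun _ => (1 : ℝ))
    (hZ'.continuous_indicator continuous_const)
  have h1 : ∀ y : P, F ((y, ((toD y : D) : OnePoint D)), toM y.1) = 1 := fun y => by
    have := hFf ⟨((y, ((toD y : D) : OnePoint D)), toM y.1), Or.inr rfl, trivial⟩
    rw [this, indicator_of_mem]
    exact ⟨toD y, rfl, rfl⟩
  have h0 : ∀ (m : P) (y : M), F ((m, ∞), y) = 0 := fun m y => by
    have := hFf ⟨((m, ∞), y), Or.inl rfl, trivial⟩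
    rw [this, indicator_of_notMem]
    rintro ⟨d, hd, -⟩
    exact OnePoint.coe_ne_infty d hd.symm
  let T : ℕ → Set ℝ := fun n => {r | ∃ y : P, y.1 = r ∧ ∀ m : P, dist m y < 1 / ((n : ℝ) + 1) →
    1 / 2 < F ((m, ((toD y : D) : OnePoint D)), toM y.1)}
  have hT : ∀ y : P, ∃ n, y.1 ∈ T n := by
    intro y
    have hc : Continuous fun m : P => F ((m, ((toD y : D) : OnePoint D)), toM y.1) :=
      hF.comp (by fun_prop)
    have : ∀ᶠ m in 𝓝 y, 1 / 2 < F ((m, ((toD y : D) : OnePoint D)), toM y.1) :=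
      (hc.tendsto y).eventually (lt_mem_nhds (by rw [h1]; norm_num))
    obtain ⟨δ, hδ, hb⟩ := Metric.eventually_nhds_iff.1 this
    obtain ⟨n, hn⟩ := exists_nat_one_div_lt hδ
    exact ⟨n, y, rfl, fun m hm => hb (hm.trans hn)⟩
  let C : ℕ ⊕ ℚ → Set ℝ := Sum.elim (fun n => closure (T n)) (fun q : ℚ => {(q : ℝ)})
  have hCc : ∀ i, IsClosed (C i) := by
    rintro (n | q)
    · exact isClosed_closure
    · exact isClosed_singleton
  have hCu : ⋃ i, C i = univ := by
    rw [eq_univ_iff_forall]
    intro r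
    by_cases hr : Irrational r
    · obtain ⟨n, hn⟩ := hT ⟨r, hr⟩
      exact mem_iUnion.2 ⟨Sum.inl n, subset_closure hn⟩
    · obtain ⟨q, hq⟩ : r ∈ range ((↑) : ℚ → ℝ) := not_not.1 hr
      exact mem_iUnion.2 ⟨Sum.inr q, hq.symm⟩
  obtain ⟨i, hi⟩ := nonempty_interior_of_iUnion_of_closed hCc hCu
  rcases i with n | q
  swap
  · have : C (Sum.inr q) = {(q : ℝ)} := rfl
    rw [this, interior_singleton] at hi
    exact absurd hi (by simp)
  obtain ⟨q, hq⟩ := Rat.denseRange_cast.exists_mem_open isOpen_interior hi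
  have hq' : (q : ℝ) ∈ closure (T n) := interior_subset hq
  have hε : (0 : ℝ) < 1 / ((n : ℝ) + 1) / 2 := half_pos Nat.one_div_pos_of_nat
  obtain ⟨r, hr, hr1, hr2⟩ := exists_irrational_btwn (lt_add_of_pos_right (q : ℝ) hε)
  let m : P := ⟨r, hr⟩
  have hc : Continuous fun p : OnePoint D × M => F ((m, p.1), p.2) := hF.comp (by fun_prop)
  have h2 : ∀ᶠ p : OnePoint D × M in 𝓝 (∞, toM q), F ((m, p.1), p.2) < 1 / 2 :=
    (hc.tendsto _).eventually (gt_mem_nhds (by rw [h0]; norm_num))
  rw [nhds_prod_eq, eventually_prod_iff] at h2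
  obtain ⟨pa, hpa, pb, hpb, hab⟩ := h2
  have hE := ((mem_nhds_infty _).1 hpa).2
  obtain ⟨V, hV, hVo, hqV⟩ := mem_nhds_iff.1 hpb
  have hV' : toM ⁻¹' V ∈ 𝓝 (q : ℝ) := (M_isOpen_iff V).1 hVo _ hqV (Rat.not_irrational q)
  have hE' : ((fun d : D => (ofD d).1) '' {d : D | (d : OnePoint D) ∉ {x | pa x}})ᶜ
      ∈ 𝓝 (q : ℝ) := by
    refine (hE.image _).isClosed.isOpen_compl.mem_nhds ?_
    rintro ⟨d, -, hd⟩
    exact (ofD d).2 ⟨q, hd.symm⟩
  obtain ⟨y', ⟨⟨hy1, hy2⟩, hy3⟩, y, rfl, hy⟩ := mem_closure_iff_nhds.1 hq' _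
    (inter_mem (inter_mem hV' hE') (Metric.ball_mem_nhds _ hε))
  have h3 : pa ((toD y : D) : OnePoint D) := by
    by_contra hn
    exact hy2 ⟨toD y, hn, rfl⟩
  have h4 := hab h3 (hV hy1)
  have h5 : dist m y < 1 / ((n : ℝ) + 1) := by
    rw [Subtype.dist_eq]
    have h6 : dist (y : ℝ) q < 1 / ((n : ℝ) + 1) / 2 := hy3
    rw [Real.dist_eq, abs_lt] at h6 ⊢
    show -(1 / ((n : ℝ) + 1)) < r - y ∧ r - y < 1 / ((n : ℝ) + 1)
    constructor <;> linarith [h6.1, h6.2]
  exact absurd (hy m h5) (not_lt.2 h4.le)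

/-- There are a Tychonoff space `X`, a closed Čech-complete paracompact subset `A` that is
P-embedded in `X`, and a space `Y` such that `A × Y` is not even C-embedded (hence not
P-embedded) in `X × Y`. -/
theorem result : ∃ (X : Type) (_ : TopologicalSpace X) (A : Set X) (Y : Type)
    (_ : TopologicalSpace Y), T35Space X ∧ IsClosed A ∧ CechComplete A ∧ ParacompactSpace A ∧
      PEmbedded.{v} A ∧ ¬ CEmbedded (A ×ˢ (univ : Set Y)) ∧
      ¬ PEmbedded.{0} (A ×ˢ (univ : Set Y)) :=
  ⟨X, inferInstance, A, M, inferInstance, t35_X, isClosed_A, cech_A, paracompact_A, pEmbedded_A,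
    not_cEmbedded, fun h => not_cEmbedded fun f hf => h ℝ f hf⟩

end Pool.Agent.Results.MP_4b6139_gt.Counter
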